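import Pool.Agent.Helper79.EM.GrowthX

set_option autoImplicit false

namespace Pool.Agent.Helper79.Old.ActingPrimes

open Finset

/-- **Sets on which many primes act have maximal sumsets.**

For all `k`, all `ε, κ, σ > 0` and all real `b` there is `c > 0` such that: let `B ⊆ A` be finite
sets of integers, `A` non-empty, `0 ∉ B`, `|B| ≥ |A|^(1-c)`, let `X` be a finite non-empty set of
integers with `|X| ≤ |A|^b` and let `T` be a set of at least `σ log |A|` primes such that, for each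
`p ∈ T`, at least `κ |B|` elements `x` of `B` satisfy `p x ∈ B`. Then
`|X + kA| ≥ c |X| |A|^(k - ε)`.

With `B = A` and `X = {0}`: if `0 ∉ A` and `|A ∩ pA| ≥ κ |A|` for at least `σ log |A|` primes `p`,
then `|kA| ≥ c |A|^(k - ε)`. Nothing is assumed about any other prime. -/
theorem result : ∀ k : ℕ, ∀ ε κ σ b : ℝ, 0 < ε → 0 < κ → 0 < σ → ∃ c : ℝ, 0 < c ∧
    ∀ A B X : Finset ℤ, A.Nonempty → B ⊆ A → (0 : ℤ) ∉ B →
      (A.card : ℝ) ^ (1 - c) ≤ (B.card : ℝ) →
      X.Nonempty → (X.card : ℝ) ≤ (A.card : ℝ) ^ b →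
      ∀ T : Finset ℕ, (∀ p ∈ T, p.Prime) → σ * Real.log (A.card : ℝ) ≤ (T.card : ℝ) →
        (∀ p ∈ T, κ * (B.card : ℝ) ≤ ((B.filter (fun x => (p : ℤ) * x ∈ B)).card : ℝ)) →
        c * X.card * (A.card : ℝ) ^ ((k : ℝ) - ε) ≤
          (((X ×ˢ Fintype.piFinset (fun _ : Fin k => A)).image
            (fun f : ℤ × (Fin k → ℤ) => f.1 + ∑ i, f.2 i)).card : ℝ) :=
  fun k ε κ σ b hε hκ hσ => Pool.Agent.Helper79.EM.acting_primes k ε κ σ b hε hκ hσ

end Pool.Agent.Helper79.Old.ActingPrimes
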