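import Mathlib
import Pool.Agent.Helper31.Spectra
import Pool.Agent.Helper32.PumpDefs
import Pool.Agent.Helper32.PumpLang

set_option autoImplicit false

namespace Pool.Agent.Results.MP_8d783e_lc.NestedCuts

open FirstOrder FirstOrder.Language
open Pool.Agent.Helper31.Spectra Pool.Agent.Helper32.Pump

/-- **Asser's problem for sentences whose large models have nested cuts of bounded index.**
Let `φ` be a sentence over a finite relational vocabulary and let `r` be a number. There are `N`
and `p > 0` such that, if for every sufficiently large `n` in the spectrum some model of size `n`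
has a chain of `N + 1` strictly increasing subsets with cuts of index at most `r`, then the
spectrum of `φ` is ultimately periodic with period `p` and its complement is a spectrum. -/
theorem result (L : FirstOrder.Language.{0, 0}) (hfun : ∀ n, IsEmpty (L.Functions n))
    (hrel : Finite (Σ n, L.Relations n)) (φ : L.Sentence) (r : ℕ) :
    ∃ N p : ℕ, 0 < p ∧ ∀ B : ℕ,
      (∀ n : ℕ, B < n → (∃ (M : Type) (_ : L.Structure M), Nat.card M = n ∧ φ.Realize M) →
        ∃ (M : Type) (_ : L.Structure M),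
          Nat.card M = n ∧ φ.Realize M ∧ HasCutChain L M r N) →
      (∃ n₀ : ℕ, ∀ n : ℕ, n₀ ≤ n →
        ((∃ (M : Type) (_ : L.Structure M), Nat.card M = n ∧ φ.Realize M) ↔
          (∃ (M : Type) (_ : L.Structure M), Nat.card M = n + p ∧ φ.Realize M))) ∧
      ∃ (L' : FirstOrder.Language.{0, 0}) (ψ : L'.Sentence),
        Finite (Σ n, L'.Functions n) ∧ Finite (Σ n, L'.Relations n) ∧
        ∀ n : ℕ,
          (0 < n ∧ ∃ (M : Type) (_ : L'.Structure M), Nat.card M = n ∧ ψ.Realize M) ↔
            (0 < n ∧ ¬ ∃ (M : Type) (_ : L.Structure M), Nat.card M = n ∧ φ.Realize M) := by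
  obtain ⟨N, p, hp, hpump⟩ := pump_sentence hfun hrel φ r
  refine ⟨N, p, hp, fun B hB => ?_⟩
  have hclosed : ∀ n ∈ Spec L φ, B < n → n + p ∈ Spec L φ := by
    rintro n ⟨hn, hM⟩ hBn
    obtain ⟨M, sM, hcard, hφ, hchain⟩ := hB n hBn hM
    have hfin : Finite M := Nat.finite_of_card_ne_zero (by omega)
    obtain ⟨M', sM', _, hcard', hφ'⟩ := hpump M hchain hφ 1
    exact ⟨by omega, M', sM', by rw [hcard', hcard, one_mul], hφ'⟩
  have h0 : (0 : ℕ) ∉ Spec L φ := fun h => absurd h.1 (lt_irrefl 0)
  constructor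
  · obtain ⟨n₀, hn₀⟩ := eventually_periodic (Spec L φ) B p hp hclosed
    refine ⟨n₀ + 1, fun n hn => ?_⟩
    have h := hn₀ n (by omega)
    constructor
    · intro h1
      exact (h.1 ⟨by omega, h1⟩).2
    · intro h1
      exact (h.2 ⟨by omega, h1⟩).2
  · obtain ⟨L', ψ, hL', hψ⟩ := (isSpectrum_compl (Spec L φ) h0 B p hp hclosed).2
    refine ⟨L', ψ, hL'.1, hL'.2, fun n => ?_⟩
    have h := Set.ext_iff.1 hψ n
    constructor
    · intro h1
      obtain ⟨h2, h3⟩ := h.1 h1
      exact ⟨h2, fun h4 => h3 ⟨h2, h4⟩⟩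
    · rintro ⟨h1, h2⟩
      exact h.2 ⟨h1, fun h3 => h2 h3.2⟩

end Pool.Agent.Results.MP_8d783e_lc.NestedCuts
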