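import Mathlib
import Pool.Agent.Helper31.Spectra
import Pool.Agent.Helper6.ED.Barrier
import Pool.Agent.Helper6.ED.NonPer
import Pool.Agent.Helper79.TL.Pos
import Pool.Agent.Helper79.TL.Enc

set_option autoImplicit false

namespace Pool.Agent.Results.MP_8d783e_lc.TreeLikeThreshold

open FirstOrder FirstOrder.Language
open Pool.Agent.Helper79.TL Pool.Agent.Helper32.Pump

/-- A finite vocabulary of function (and constant) and relation symbols. -/
def FiniteVocabulary (L : FirstOrder.Language.{0, 0}) : Prop :=
  Finite (Σ n, L.Functions n) ∧ Finite (Σ n, L.Relations n)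

/-- A finite vocabulary of relation symbols. -/
def FiniteRelational (L : FirstOrder.Language.{0, 0}) : Prop :=
  (∀ n, IsEmpty (L.Functions n)) ∧ Finite (Σ n, L.Relations n)

/-- The spectrum of a sentence: the set of the sizes of its finite nonempty models. -/
def Spectrum (L : FirstOrder.Language.{0, 0}) (φ : L.Sentence) : Set ℕ :=
  {n | 0 < n ∧ ∃ (M : Type) (_ : L.Structure M), Nat.card M = n ∧ φ.Realize M}

/-- `S` is the spectrum of a sentence over a finite vocabulary. -/
def IsSpectrum (S : Set ℕ) : Prop :=
  ∃ (L : FirstOrder.Language.{0, 0}) (φ : L.Sentence), FiniteVocabulary L ∧ Spectrum L φ = S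

/-- From some point on the set `S` has the period `p`. -/
def HasPeriod (p : ℕ) (S : Set ℕ) : Prop :=
  ∃ N : ℕ, ∀ n, N ≤ n → (n ∈ S ↔ n + p ∈ S)

/-- `φ` is a sentence over a finite vocabulary of relation symbols of arity at most 2, and the Gaifman
graphs of all its finite nonempty models are `C`-thin. -/
def Thin (C : ℕ) (L : FirstOrder.Language.{0, 0}) (φ : L.Sentence) : Prop :=
  FiniteRelational L ∧ (∀ n, 2 < n → IsEmpty (L.Relations n)) ∧
    ∀ (M : Type) [L.Structure M] [Finite M] [Nonempty M], φ.Realize M →
      ThinGraph C (gaifman L M)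

/-- **A sharp threshold for Asser's problem: models with a tree-like part.**

The Gaifman graph of a relational structure: different elements are adjacent if they occur together in
a tuple of a relation.

(1) For every sentence `φ` over a finite relational vocabulary and all `k, r` there are `C, p > 0` such
that
(a) every finite nonempty model `A` of `φ` with
a chain of `C + 1` nested cuts of index at most `r`, or
a set `X` of at least `C * (b + 1)` elements, where `b` is the number of the elements outside `X` with
neighbours in `X`, such that the edges that meet `X` form a graph of tree-width at most `k` or of at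
most `(1 + 1 / (2 * C)) * |X|` edges (for `X = A` this means: the average degree is at most
`2 + 1 / C`),
yields the arithmetic progression `|A|, |A| + p, |A| + 2 p, …` in the spectrum of `φ`;
(b) if every large `n` in the spectrum is the size of such a model, then the spectrum is ultimately
periodic with period `p` and its complement is a spectrum.

(2) `C` cannot be chosen independently of `φ`: for every `C > 0`, if the complement of the spectrum of
every sentence all of whose finite models are `C`-thin (relation symbols of arity at most 2 only) is a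
spectrum, then the complement of every spectrum is a spectrum (a positive answer to Asser's problem).

(3) For every `C > 0` there is such a sentence whose spectrum is not ultimately periodic. -/
theorem result :
    (∀ (L : FirstOrder.Language.{0, 0}) (φ : L.Sentence) (k r : ℕ), FiniteRelational L →
      ∃ C p : ℕ, 0 < C ∧ 0 < p ∧
        (∀ (A : Type) [L.Structure A] [Finite A] [Nonempty A], φ.Realize A → Tame L k r C A →
          ∀ j, Nat.card A + p * j ∈ Spectrum L φ) ∧
        (∀ B : ℕ, (∀ n ∈ Spectrum L φ, B ≤ n → ∃ (A : Type) (_ : L.Structure A),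
            Nat.card A = n ∧ φ.Realize A ∧ Tame L k r C A) →
          HasPeriod p (Spectrum L φ) ∧ IsSpectrum {n | 0 < n ∧ n ∉ Spectrum L φ})) ∧
    (∀ C : ℕ, 0 < C →
      (∀ (L : FirstOrder.Language.{0, 0}) (φ : L.Sentence), Thin C L φ →
        IsSpectrum {n | 0 < n ∧ n ∉ Spectrum L φ}) →
      ∀ (L : FirstOrder.Language.{0, 0}) (φ : L.Sentence), FiniteVocabulary L →
        IsSpectrum {n | 0 < n ∧ n ∉ Spectrum L φ}) ∧
    (∀ C : ℕ, 0 < C → ∃ (L : FirstOrder.Language.{0, 0}) (φ : L.Sentence), Thin C L φ ∧
      ∀ p, 0 < p → ¬ HasPeriod p (Spectrum L φ)) := by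
  refine ⟨?_, ?_, ?_⟩
  · intro L φ k r hL
    obtain ⟨C, p, hC, hp, hpump⟩ := pump_tame hL.1 hL.2 φ k r
    have hmem : ∀ (A : Type) [L.Structure A] [Finite A] [Nonempty A], φ.Realize A →
        Tame L k r C A → ∀ j, Nat.card A + p * j ∈ Spectrum L φ := by
      intro A _ _ _ hφ hA j
      obtain ⟨M', sM', -, hcard, hM'⟩ := hpump A hφ hA j
      have hpos : 0 < Nat.card A := Nat.card_pos
      refine ⟨by omega, M', sM', ?_, hM'⟩
      rw [hcard, Nat.mul_comm]
    refine ⟨C, p, hC, hp, fun A _ _ _ hφ hA j => hmem A hφ hA j, ?_⟩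
    intro B hB
    have h0 : (0 : ℕ) ∉ Spectrum L φ := fun h => absurd h.1 (lt_irrefl 0)
    have hclosed : ∀ n ∈ Spectrum L φ, B < n → n + p ∈ Spectrum L φ := by
      intro n hn hBn
      obtain ⟨A, sA, hcard, hφ, hA⟩ := hB n hn hBn.le
      have hn0 : Nat.card A ≠ 0 := by
        have := hn.1
        omega
      have hfin : Finite A := Nat.finite_of_card_ne_zero hn0
      have hne : Nonempty A := (Nat.card_ne_zero.1 hn0).1
      have := hmem A hφ hA 1
      rw [hcard, mul_one] at this
      exact this
    obtain ⟨N, hN⟩ := Pool.Agent.Helper31.Spectra.eventually_periodic (Spectrum L φ) B p hp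
      hclosed
    exact ⟨⟨N, hN⟩,
      (Pool.Agent.Helper31.Spectra.isSpectrum_compl (Spectrum L φ) h0 B p hp hclosed).2⟩
  · intro C hC hyp L φ hL
    refine Pool.Agent.Helper6.ED.barrier_ax C (2 * C) (by omega) ?_ L φ hL
    intro s κ₀ hκ ψ hψ
    exact hyp (Pool.Agent.Helper6.ED.LU s (2 * C)) ψ
      ⟨⟨Pool.Agent.Helper6.ED.isEmpty_LU s _, Pool.Agent.Helper6.ED.finite_LU s _⟩,
        Pool.Agent.Helper6.ED.binary_LU s _,
        fun M _ _ _ hM => thin_U (hψ M hM) hC le_rfl κ₀ hκ.le⟩
  · intro C hC
    obtain ⟨φ, hφ, hper⟩ := Pool.Agent.Helper6.ED.not_periodic_ax C (2 * C) (by omega)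
    refine ⟨Pool.Agent.Helper6.ED.LU (Pool.Agent.Helper6.ED.s1 C) (2 * C), φ,
      ⟨⟨Pool.Agent.Helper6.ED.isEmpty_LU _ _, Pool.Agent.Helper6.ED.finite_LU _ _⟩,
        Pool.Agent.Helper6.ED.binary_LU _ _,
        fun M _ _ _ hM => thin_U (hφ M hM) hC le_rfl () ?_⟩, ?_⟩
    · show C ≤ C + 2
      omega
    · rintro p hp ⟨N, hN⟩
      exact hper ⟨N, p, hp, hN⟩

end Pool.Agent.Results.MP_8d783e_lc.TreeLikeThreshold
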